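import Pool.Agent.V11233.FP.Fin

/-!
The language families of the first-move self-regulating pushdown automata.
-/

set_option autoImplicit false

namespace Pool.Agent.Results.MP_a569f2_lc.Power

open Pool.Agent.V11233.SR Pool.Agent.V11233.FP

/-- For every `n`, the family `FSPDA_n` consists exactly of the homomorphic images of the
intersections of a context-free language and an `(n+1)`-parallel right linear language; moreover
it consists exactly of the homomorphic images of the languages `K ∩ g⁻¹({0^k 1^k ⋯ n^k : k ≥ 1})`,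
where `K` is context-free and `g` is a letter-to-letter homomorphism. -/
theorem result (n : ℕ) (S : Type) (L : Set (List S)) :
    (L ∈ FSPDA n S ↔ ∃ (Δ : Type) (_ : Finite Δ) (K : Language Δ) (P : PRLG n Δ)
      (h : Δ → List S), K.IsContextFree ∧ L = {w | ∃ u ∈ K, u ∈ P.lang ∧ w = u.flatMap h}) ∧
    (L ∈ FSPDA n S ↔ ∃ (Δ : Type) (_ : Finite Δ) (K : Language Δ) (g : Δ → ℕ)
      (h : Δ → List S), K.IsContextFree ∧ L = {w | ∃ u ∈ K, (∃ k, 1 ≤ k ∧
        u.map g = (List.range (n + 1)).flatMap (fun i => List.replicate k i)) ∧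
        w = u.flatMap h}) := by
  constructor
  · constructor
    · intro hL
      obtain ⟨Δ, hΔ, K, g, h, hK, rfl⟩ := mem_typed hL
      refine ⟨Δ, hΔ, K, tyG hΔ n g, h, hK, ?_⟩
      rw [ty_lang hΔ n g]
      rfl
    · rintro ⟨Δ, hΔ, K, P, h, hK, rfl⟩
      exact prl_mem K hK P h
  · constructor
    · intro hL
      exact mem_typed hL
    · rintro ⟨Δ, hΔ, K, g, h, hK, rfl⟩
      exact typed_mem K hK g h

end Pool.Agent.Results.MP_a569f2_lc.Power
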